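import Pool.Agent.Helper23_FHQ.Final

/-!
# Fractional Helly numbers in ultraproducts of local fields

Answer (yes) to Q1: in the ultraproducts `K` of the fields `ℚ_p` and of the fields `𝔽_p((t))`, for
non-principal ultrafilters with `p → ∞`, every formula with `d` object variables satisfies `FHP_{d+1}`.

The definitions used by the statement are in `Pool.Agent.FHQ.ZDefs`:

* `UP F U`: the ultraproduct of the fields `F i`; `UM F U mx`: the classes of the sequences which are
  in `mx i` for almost all `i`, i.e. the maximal ideal of the valuation ring of the ultraproduct for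
  `mx i = mxQ (p i)`, the maximal ideal of `ℤ_p`, and `mx i = mxL (p i)`, the maximal ideal of
  `𝔽_p[[t]]`;
* `RV K mx = Kˣ / (1 + mx)`, `rv` the quotient map;
* `Fml k r`: the formulas of the two-sorted language with `k` free variables of the field sort and `r`
  free variables of the sort `RV`: ring language on the field sort, `rv`, equality, product, partial
  addition and all the relations of the induced structure on `RV`, Boolean operations, quantifiers
  over both sorts; `Fml.real`: the truth of a formula;
* `FHPm K mx φ k`: `φ (x, y)` satisfies `FHP_k`, for `dK` object variables of the field sort and `dR` of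
  the sort `RV`, `nK` and `nR` parameter variables.
-/

namespace Pool.Agent.Results.MP_1bf0ce_lc.FractionalHelly

open Pool.Agent.FHQ

/-- Let `p_i` be primes and `U` an ultrafilter on `ℕ` such that `{i : p_i ≠ q} ∈ U` for every prime
`q` (so `U` is non-principal), and `K` the ultraproduct of the `ℚ_{p_i}` or of the `𝔽_{p_i}((t))`.  Every
formula `φ (x, y)` with `|x| ≤ d` of the two-sorted language satisfies `FHP_{d+1}` in
`(K, RV, rv)`. -/
theorem result (p : ℕ → ℕ) [∀ i, Fact (p i).Prime] (U : Ultrafilter ℕ)
    (hU : ∀ q : ℕ, q.Prime → ∀ᶠ i in (U : Filter ℕ), p i ≠ q)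
    (d dK dR nK nR : ℕ) (hd : dK + dR ≤ d) (φ : Fml (dK + nK) (dR + nR)) :
    FHPm (UP (fun i => ℚ_[p i]) U) (UM (fun i => ℚ_[p i]) U fun i => mxQ (p i)) φ (d + 1) ∧
    FHPm (UP (fun i => LaurentSeries (ZMod (p i))) U)
      (UM (fun i => LaurentSeries (ZMod (p i))) U fun i => mxL (p i)) φ (d + 1) :=
  H23.main p U hU d dK dR nK nR hd φ

end Pool.Agent.Results.MP_1bf0ce_lc.FractionalHelly
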